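import Pool.Agent.H10.EP.Eight
import Pool.Agent.H10.EP.SylowCase

/-!
# Split embedding problems and solvable subgroups of the kernel with abelian sections

Let `K` be a Hilbertian field of any characteristic (the hypothesis on `K` is verbatim the one of the
frozen statement `S03429`) and let `α : G → Gal(F1/K)` be a finite split embedding problem with
kernel `N`. Let `R ≤ N` be a normal subgroup of `G` which is solvable, such that every section
`B / M` of order a power of a prime different from the characteristic of `K`, with `M ≤ B ≤ R`
normal subgroups of `G`, is abelian, and such that no prime different from the characteristic of `K`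
divides both `|R|` and `[N : R]`. If `[N : R]` divides `8`, or if the quotient problem
`G / R → Gal(F1/K)` has a proper solution, then `α` has a proper solution.

With `R = N` this covers for instance all solvable kernels whose Sylow subgroups (for the primes
different from the characteristic) are abelian (`Pool.Agent.H10.EP.of_abelian_sylow`). With `R = 1`
it covers the two nonabelian kernels of order `8`, with an arbitrary action of `Gal(F1/K)`.

Sketch of the proof. Induction on `|G|`. If `R` contains a nontrivial normal `p`-subgroup of `G`,
where `p` is the characteristic, one divides by an elementary abelian one; embedding problems (split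
or not) with such kernels are solved by a generic Artin-Schreier construction. Otherwise there is a
nontrivial abelian normal subgroup `A ≤ R` of `G` of order prime to the characteristic which has a
complement in `G`: if `R` is not abelian, take a minimal nonabelian normal subgroup of `G` inside `R`
and use a coprime action and the Frattini argument; if `R` is abelian, use the Schur-Zassenhaus
theorem. So `G` is solved from `G / A` by a split problem with abelian kernel, for which a
generic Kummer extension is specialised.

There remains the case of a kernel of order dividing `8`. It is abelian, or the characteristic is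
`2`, or it is a nonabelian group of order `8` and the characteristic is not `2`. In the last case
`H = Gal(F1/K)` acts semilinearly on a quaternion algebra over `F1` in which the kernel embeds. An
explicit equivariant family of orthogonal frames of pure quaternions, depending on a vector `ν` of
the twisted pure quaternions and on an element `θ` on which `H` acts through the orientation of the
three axes of the kernel, has norms `μ R₂ R₃, μ R₃ R₁, R₁ R₂` for three quadratic forms `Rᵢ` in `ν`.
After adjoining the square roots of the norms, the normalised frame is conjugate to the standard one
by an explicit quaternion `x`; adjoining also the square root of its norm, the cocycle `x⁻¹ σ(x)`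
takes values in the kernel and defines a homomorphism to `G`. Letting `ν` vary on a generic line, the
Hilbertian property of `K` makes the square roots independent over `F1`, so that it is onto.
-/

namespace Pool.Agent.Results.MP_e9d732_al.AbelianSections

open Pool.Agent.H10.EP Subgroup
open scoped commutatorElement

/-- **Theorem.** Let `K` be a Hilbertian field, `F1 / K` finite Galois and `α : G → Gal(F1/K)` a
homomorphism of finite groups with section `s` and kernel `N`. Let `R ≤ N` be a solvable normal
subgroup of `G` such that `B / M` is abelian for any two normal subgroups `M ≤ B ≤ R` of `G` with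
`[B : M]` a power of a prime `l` that is nonzero in `K`, and such that every prime dividing both
`|R|` and `[N : R]` is zero in `K`. Assume that `[N : R]` divides `8` or that the embedding problem
`G / R → Gal(F1/K)` has a proper solution. Then `α` has a proper solution. -/
theorem result :
    ∀ (K : Type) [Field K],
      (∀ (f : Polynomial (Polynomial K)), f.Monic → Irreducible f →
          (f.map (algebraMap (Polynomial K) (FractionRing (Polynomial K)))).Separable →
          ∀ g : Polynomial K, g ≠ 0 →
            ∃ a : K, g.eval a ≠ 0 ∧ Irreducible (f.map (Polynomial.evalRingHom a))) →
      ∀ (F1 : Type) [Field F1] [Algebra K F1] [FiniteDimensional K F1] [IsGalois K F1]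
        (G : Type) [Group G] [Finite G] (α : G →* (F1 ≃ₐ[K] F1)) (s : (F1 ≃ₐ[K] F1) →* G),
        (∀ h, α (s h) = h) →
        ∀ (R : Subgroup G) [R.Normal] (hR : R ≤ α.ker), Group.IsSolvable R →
        (∀ M B : Subgroup G, M.Normal → B.Normal → M ≤ B → B ≤ R →
          ∀ l k : ℕ, l.Prime → (l : K) ≠ 0 → M.relIndex B = l ^ k →
            ∀ x ∈ B, ∀ y ∈ B, x * y * x⁻¹ * y⁻¹ ∈ M) →
        (∀ l : ℕ, l.Prime → l ∣ Nat.card R → l ∣ R.relIndex α.ker → (l : K) = 0) →
        (R.relIndex α.ker ∣ 8 ∨
          ∃ (F : Type) (_ : Field F) (_ : Algebra K F) (_ : Algebra F1 F)
            (_ : IsScalarTower K F1 F),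
            FiniteDimensional K F ∧ IsGalois K F ∧
            ∃ γ : (F ≃ₐ[K] F) ≃* (G ⧸ R), ∀ σ : F ≃ₐ[K] F,
              QuotientGroup.lift R α hR (γ σ) = σ.restrictNormal F1) →
        ∃ (F : Type) (_ : Field F) (_ : Algebra K F) (_ : Algebra F1 F)
          (_ : IsScalarTower K F1 F),
          FiniteDimensional K F ∧ IsGalois K F ∧
          ∃ γ : (F ≃ₐ[K] F) ≃* G, ∀ σ : F ≃ₐ[K] F, α (γ σ) = σ.restrictNormal F1 := by
  intro K _ hK F1 _ _ _ _ G _ _ α s hs R _ hR hsol hsec hcop h
  have h1 : Sec K R := by
    intro M B hM hB hMB hBN l k hl hlK hind
    rw [Subgroup.commutator_le]
    intro x hx y hy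
    rw [commutatorElement_def]
    exact hsec M B hM hB hMB hBN l k hl hlK hind x hx y hy
  refine main_reduction hK α s hs R hR hsol h1 hcop ?_
  rcases h with h | h
  · right
    apply solvable_card_dvd_eight hK (QuotientGroup.lift R α hR) ((QuotientGroup.mk' R).comp s)
      (fun h => hs h)
    rw [QuotientGroup.ker_lift]
    have h5 : Nat.card (α.ker.map (QuotientGroup.mk' R)) = R.relIndex α.ker := by
      have h6 := Subgroup.relIndex_map_map (QuotientGroup.mk' R) R α.ker
      rw [QuotientGroup.ker_mk', sup_idem, sup_eq_left.2 hR] at h6
      rw [← h6]
      have h7 : R.map (QuotientGroup.mk' R) = ⊥ := by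
        rw [Subgroup.map_eq_bot_iff, QuotientGroup.ker_mk']
      rw [h7, Subgroup.relIndex_bot_left]
    rw [h5]
    exact h
  · exact Or.inr h

end Pool.Agent.Results.MP_e9d732_al.AbelianSections
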