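import Pool.Agent.H17.Ep.Close

/-!
# Embedding problems over Hilbertian fields of characteristic `p` with classical kernels

Let `K` be a Hilbertian field of characteristic `p > 0` (the hypothesis on `K` is verbatim the one
of the frozen statement `S03429`), `F1 / K` a finite Galois extension and `α : G → Gal(F1/K)` a
surjection of finite groups, split or not.  Let `⊥ = N 0 ≤ N 1 ≤ ... ≤ N r = ker α` be a chain of
normal subgroups of `G`.  If every step `Γ = G / N i`, `M = N (i + 1) / N i` of the chain is of one
of the types below, then `α` has a proper solution.

The types (`Pool.Agent.H17.Ep.Step`; all definitions are in `Pool/Agent/H17/Ep/StepDef.lean`):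

1. `TypeOne`: all composition factors of `M` have order `p` or are non-abelian simple groups of the
   form `PGL_n(q)`, `PGU_n(q)`, `PGSp_2n(q)` with `q` a power of `p` (`AdjointType`);
2. `TypeTwo`: `M` is a finite power of one of the groups `PGL_n(q)`, `PGU_n(q)`, `PGSp_2n(q)`,
   simple or not;
3. `M` has a supplement `X` in `Γ` (that is `M X = Γ`) such that `M ∩ X` is as in 1, for instance
   a complement, and
   * (a) `TypeA`: `M` is solvable and `C / B` is abelian for all normal subgroups `B ≤ C ≤ M` of
     `Γ` with `[C : B]` a power of a prime different from `p`; or
   * (b) `TypeB`: `M` is a direct product of finitely many non-abelian simple groups, each of them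
     one of `PSL_n(q)`, `PSU_n(q)`, `PSp_2n(q)` with `q` a power of `p` (`SimpleType`); or
   * (c) `TypeC`: `M` is the image of the unit group of a finite ring `A` of characteristic `p`, on
     which `X` acts, under an `X`-equivariant homomorphism; or
   * (d) `TypeD`: `M` is, in the same sense, an image of the group generated by the hyperbolic
     elements (`hypGrp`) of `(M_n(C), st)`, `C` a finite commutative `F_p`-algebra, `st` an
     involution commuting with the action of `X`, with `1 = c + st c` for some `c`, provided that
     this group contains all `u` with `u * st u = 1` and `det u = 1`.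

Proof: all automorphisms of the simple groups in question are semilinear, which makes the
extensions by adjoint groups split and lets the Galois group act on a matrix algebra with
involution over a finite ring; in the twisted form of this algebra over `K` there is a rational
family of commutators of unitary elements whose Lang torsor has the full special unitary group as
Galois group, and the family is specialised by Hilbert's irreducibility property.
-/

namespace Pool.Agent.Results.MP_e9d732_al.ClassicalKernels

open Pool.Agent.H17.Ep

/-- **Theorem.** Let `K` be a Hilbertian field of characteristic `p`, `F1 / K` finite Galois,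
`α : G → Gal(F1/K)` a surjection of finite groups (not necessarily split) and
`⊥ = N 0 ≤ ... ≤ N r = ker α` a chain of normal subgroups of `G` such that each
`(G / N i, N (i + 1) / N i)` satisfies `Step p`. Then `α` has a proper solution. -/
theorem result :
    ∀ (p : ℕ) [Fact p.Prime] (K : Type) [Field K] [CharP K p],
      (∀ (f : Polynomial (Polynomial K)), f.Monic → Irreducible f →
          (f.map (algebraMap (Polynomial K) (FractionRing (Polynomial K)))).Separable →
          ∀ g : Polynomial K, g ≠ 0 →
            ∃ a : K, g.eval a ≠ 0 ∧ Irreducible (f.map (Polynomial.evalRingHom a))) →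
      ∀ (F1 : Type) [Field F1] [Algebra K F1] [FiniteDimensional K F1] [IsGalois K F1]
        (G : Type) [Group G] [Finite G] (α : G →* (F1 ≃ₐ[K] F1)),
        Function.Surjective α →
        ∀ (r : ℕ) (N : ℕ → Subgroup G) [∀ i, (N i).Normal], N 0 = ⊥ → N r = α.ker →
          (∀ i < r, N i ≤ N (i + 1)) →
          (∀ i < r, Step p ((N (i + 1)).map (QuotientGroup.mk' (N i)))) →
          ∃ (F : Type) (_ : Field F) (_ : Algebra K F) (_ : Algebra F1 F)
            (_ : IsScalarTower K F1 F),
            FiniteDimensional K F ∧ IsGalois K F ∧
            ∃ γ : (F ≃ₐ[K] F) ≃* G, ∀ σ : F ≃ₐ[K] F, α (γ σ) = σ.restrictNormal F1 := by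
  intro p _ K _ _ hK F1 _ _ _ _ G _ _ α hα r N hN h0 hr hle hs
  exact chain_final p hK F1 G α hα r N hN h0 hr hle hs

end Pool.Agent.Results.MP_e9d732_al.ClassicalKernels
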