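import Pool.Agent.H47.Patch.Wrap
import Pool.Agent.H47.Patch.AmpleCl

/-!
# Split embedding problems with arbitrary kernel over Hilbertian fields containing an ample field

Let `K` be a Hilbertian field (the hypothesis on `K` below is verbatim the one of the frozen
statement `S03429`) containing an ample field `k` of characteristic `0`, for example an
algebraically closed field (see `ample_of_isAlgClosed` below). `K` itself need not be ample
(for instance `K = ℂ(x, y)`, `K = ℝ(x, y)`, `K = ℚ_p(x, y)`).

Let `F1 / K` be finite Galois and `α : G → Gal(F1/K)` a split surjection of finite groups, with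
section `s`. There is **no restriction on the kernel** of `α`; the restriction is on the action:
we ask that `F1` is contained in a finite Galois extension `L` of `K` which has a subfield
`M = E(θ)`, where `E` is a finite extension of `k` and `θ` is transcendental over `k`, such that

* `M` is stable under `Gal(L/K)`,
* if `h ∈ Gal(L/K)` fixes `M` pointwise, then `s (h|F1)` centralises the kernel of `α`.

(Equivalently: if `F2` is the subfield of `F1` belonging to the group of all `h` such that `s h`
centralises the kernel of `α`, then `F2 ⊆ K M`.) For `M = E(θ)` with `E = k(ζ_n)` and `θ ^ n ∈ K`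
this covers all actions which factor through `Gal(K(ζ_n, a ^ (1/n)) / K)`; in particular, if
`k` is algebraically closed, all actions through a cyclic group.
-/

namespace Pool.Agent.Results.MP_e9d732_al.RationalAction

open Pool.Agent.H47.Patch IntermediateField

/-- Algebraically closed fields satisfy the ampleness hypothesis used in `result`. -/
theorem ample_of_isAlgClosed (k : Type) [Field k] [IsAlgClosed k] :
    ∀ A : Subalgebra k (PowerSeries k), A.FG → ∀ a : A, a ≠ 0 → ∃ φ : A →ₐ[k] k, φ a ≠ 0 :=
  ampleIn_of_isAlgClosed k

/-- **Theorem.** Let `k` be a field of characteristic `0` which is ample, in Pop's form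
(existentially closed in `k((z))`): every finitely generated `k`-subalgebra `A` of `k⟦z⟧` has, for
every nonzero `a ∈ A`, a `k`-algebra homomorphism `φ : A → k` with `φ a ≠ 0`.
Let `K` be a Hilbertian field containing `k`, `F1 / K` finite Galois, `α : G → Gal(F1/K)` a
surjection of finite groups with section `s`. Let `L / K` be a finite Galois extension containing
`F1`, `E` a finite extension of `k` in `L` and `θ ∈ L` transcendental over `k`, such that
`M = E(θ)` is stable under `Gal(L/K)`, and such that `s (h|F1)` centralises `ker α` for every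
`h ∈ Gal(L/K)` fixing `M` pointwise. Then the split embedding problem `(F1/K, α)` has a proper
solution. -/
theorem result :
    ∀ (k : Type) [Field k] [CharZero k],
      (∀ A : Subalgebra k (PowerSeries k), A.FG → ∀ a : A, a ≠ 0 →
        ∃ φ : A →ₐ[k] k, φ a ≠ 0) →
      ∀ (K : Type) [Field K] [Algebra k K],
      (∀ (f : Polynomial (Polynomial K)), f.Monic → Irreducible f →
          (f.map (algebraMap (Polynomial K) (FractionRing (Polynomial K)))).Separable →
          ∀ g : Polynomial K, g ≠ 0 →
            ∃ a : K, g.eval a ≠ 0 ∧ Irreducible (f.map (Polynomial.evalRingHom a))) →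
      ∀ (F1 : Type) [Field F1] [Algebra K F1] [FiniteDimensional K F1] [IsGalois K F1]
        (G : Type) [Group G] [Finite G] (α : G →* (F1 ≃ₐ[K] F1)) (s : (F1 ≃ₐ[K] F1) →* G),
        (∀ h, α (s h) = h) →
      ∀ (L : Type) [Field L] [Algebra K L] [Algebra F1 L] [IsScalarTower K F1 L]
        [FiniteDimensional K L] [IsGalois K L] [Algebra k L] [IsScalarTower k K L]
        (E : IntermediateField k L) [FiniteDimensional k E] (θ : L), Transcendental k θ →
        (∀ h : L ≃ₐ[K] L, ∀ x ∈ E ⊔ k⟮θ⟯, h x ∈ E ⊔ k⟮θ⟯) →
        (∀ h : L ≃ₐ[K] L, (∀ x ∈ E ⊔ k⟮θ⟯, h x = x) →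
          ∀ n ∈ α.ker, s (h.restrictNormal F1) * n = n * s (h.restrictNormal F1)) →
        ∃ (F : Type) (_ : Field F) (_ : Algebra K F) (_ : Algebra F1 F)
          (_ : IsScalarTower K F1 F),
          FiniteDimensional K F ∧ IsGalois K F ∧
          ∃ γ : (F ≃ₐ[K] F) ≃* G, ∀ σ : F ≃ₐ[K] F, α (γ σ) = σ.restrictNormal F1 := by
  intro k _ _ hample K _ _ hK F1 _ _ _ _ G _ _ α s hs L _ _ _ _ _ _ _ _ E _ θ hθ hM hcent
  exact wrap_ep hK hample E θ hθ hM α s hs hcent

end Pool.Agent.Results.MP_e9d732_al.RationalAction
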