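import Pool.Agent.H80.Hilb.Tower

set_option autoImplicit false

namespace Pool.Agent.Results.MP_e9d732_al.ReflectionTower

open Pool.Agent.H80.Hilb

/-- Let `K` be a Hilbertian field of characteristic zero, `F1/K` finite Galois and
`α : G → Gal(F1/K)` a finite embedding problem (split or not).  Suppose that it is dominated by
`α' : G' → Gal(L/K)` (`L` a finite Galois extension of `K` containing `F1`, `β : G' → G` onto and
compatible with restriction) and that the trivial subgroup of `G'` is reached from `ker α'` by a
finite tower of reflection kernels (`ReflTower`).  Then the embedding problem has a proper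
solution.  (With `G' = G`, `L = F1` and one step: `ker α` acts faithfully and as a group generated
by reflections on a semilinear representation of `G` over `F1`.) -/
theorem result (K : Type) [Field K] [CharZero K]
    (hK : ∀ (f : Polynomial (Polynomial K)), f.Monic → Irreducible f →
      (f.map (algebraMap (Polynomial K) (FractionRing (Polynomial K)))).Separable →
      ∀ g : Polynomial K, g ≠ 0 →
        ∃ a : K, g.eval a ≠ 0 ∧ Irreducible (f.map (Polynomial.evalRingHom a)))
    (F1 : Type) [Field F1] [Algebra K F1] [FiniteDimensional K F1] [IsGalois K F1]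
    (G : Type) [Group G] [Finite G] (α : G →* (F1 ≃ₐ[K] F1))
    (L : Type) [Field L] [Algebra K L] [FiniteDimensional K L] [IsGalois K L] [Algebra F1 L]
    [IsScalarTower K F1 L]
    (G' : Type) [Group G'] [Finite G'] (α' : G' →* (L ≃ₐ[K] L)) (hα' : Function.Surjective α')
    (β : G' →* G) (hβ : Function.Surjective β)
    (hcompat : ∀ g : G', α (β g) = (α' g).restrictNormal F1)
    (hM : ReflTower α' ⊥) :
    ∃ (F : Type) (_ : Field F) (_ : Algebra K F) (_ : Algebra F1 F)
      (_ : IsScalarTower K F1 F),
      FiniteDimensional K F ∧ IsGalois K F ∧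
      ∃ γ : (F ≃ₐ[K] F) ≃* G, ∀ σ : F ≃ₐ[K] F, α (γ σ) = σ.restrictNormal F1 :=
  dominated_solve hK α α' hα' β hβ hcompat hM

end Pool.Agent.Results.MP_e9d732_al.ReflectionTower
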